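import Pool.Agent.H416.DT.Tasks

/-!
# Derivations of fields without `D h = 1`

The proofs of the finite versions are by helper640 (`no_one`), helper550 (`exists_basis`) and
helper51 (`exists_der`).
-/

set_option autoImplicit false

namespace Pool.Agent.H416.DT

open Polynomial IntermediateField KaehlerDifferential
open scoped TensorProduct

universe u v

theorem exists_one {F : Type u} [Field F] [CharZero F] (D : Derivation ℤ F F) (a : F) (n : ℕ)
    (hn : n ≠ 0) (h : D a + n = 0) : ∃ b : F, D b = 1 := by
  have hn' : (n : F) ≠ 0 := Nat.cast_ne_zero.2 hn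
  refine ⟨-(a / n), ?_⟩
  have h1 : n • (-(a / n)) = -a := by
    rw [nsmul_eq_mul]
    field_simp
  have h2 : n • D (-(a / n)) = -D a := by
    rw [← map_nsmul, h1, map_neg]
  rw [nsmul_eq_mul] at h2
  have h3 : (n : F) * D (-(a / n)) = n * 1 := by
    rw [h2, mul_one]
    linear_combination -h
  exact mul_left_cancel₀ hn' h3

/-- Extension of derivations to algebraic extensions. -/
theorem exists_ext {F : Type u} {L : Type v} [Field F] [CharZero F] [Field L] [Algebra F L]
    [Algebra.IsAlgebraic F L] (D : Derivation ℤ F F) :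
    ∃ D' : Derivation ℤ L L, ∀ a : F, D' (algebraMap F L a) = algebraMap F L (D a) := by
  have : Algebra.FormallyEtale F L := Algebra.FormallyEtale.of_isSeparable F L
  let e := tensorKaehlerEquivOfFormallyEtale ℤ F L
  let l : Ω[F⁄ℤ] →ₗ[F] L := (Algebra.linearMap F L).comp D.liftKaehlerDifferential
  let l' : L ⊗[F] Ω[F⁄ℤ] →ₗ[L] L := LinearMap.liftBaseChange L l
  let l2 : Ω[L⁄ℤ] →ₗ[L] L := l'.comp e.symm.toLinearMap
  refine ⟨l2.compDer (KaehlerDifferential.D ℤ L), fun a => ?_⟩
  have h1 : e.symm (KaehlerDifferential.D ℤ L (algebraMap F L a)) =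
      1 ⊗ₜ KaehlerDifferential.D ℤ F a :=
    tensorKaehlerEquivOfFormallyEtale_symm_D_algebraMap ℤ F L a
  change l' (e.symm (KaehlerDifferential.D ℤ L (algebraMap F L a))) = _
  rw [h1, LinearMap.liftBaseChange_tmul, one_smul]
  change algebraMap F L (D.liftKaehlerDifferential (KaehlerDifferential.D ℤ F a)) = _
  rw [Derivation.liftKaehlerDifferential_comp_D]

/-- No `h` with `D h = 1` in algebraic extensions. -/
theorem no_one {F : Type u} {L : Type v} [Field F] [CharZero F] [Field L] [Algebra F L]
    [Algebra.IsAlgebraic F L] (D : Derivation ℤ F F) (hD : ∀ a : F, D a ≠ 1)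
    (D' : Derivation ℤ L L) (hD' : ∀ a : F, D' (algebraMap F L a) = algebraMap F L (D a)) (h : L) :
    D' h ≠ 1 := by
  intro hh
  letI : Differential F := ⟨D⟩
  letI : Differential L := ⟨D'⟩
  haveI : DifferentialAlgebra F L := ⟨hD'⟩
  have hint : IsIntegral F h := Algebra.IsIntegral.isIntegral h
  have h1 := Differential.deriv_aeval_eq h (minpoly F h)
  have hh' : Differential.deriv h = 1 := hh
  rw [minpoly.aeval, map_zero, hh', mul_one, ← map_add] at h1
  have hmon := minpoly.monic hint
  set m := minpoly F h with hm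
  have hpos : 0 < m.natDegree := minpoly.natDegree_pos hint
  have hco : ∀ i, (Differential.mapCoeffs m + derivative m).coeff i
      = D (m.coeff i) + m.coeff (i + 1) * (i + 1) := by
    intro i
    rw [coeff_add, Differential.coeff_mapCoeffs, coeff_derivative]
    rfl
  have hq : Differential.mapCoeffs m + derivative m = 0 := by
    by_contra hne
    have hdvd : m ∣ Differential.mapCoeffs m + derivative m := minpoly.dvd F h h1.symm
    have hdeg := degree_le_of_dvd hdvd hne
    have hlt : (Differential.mapCoeffs m + derivative m).degree < m.natDegree := by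
      rw [degree_lt_iff_coeff_zero]
      intro i hi
      rw [hco, coeff_eq_zero_of_natDegree_lt (lt_of_le_of_lt hi (Nat.lt_succ_self i)), zero_mul,
        add_zero]
      rcases hi.lt_or_eq with h2 | h2
      · rw [coeff_eq_zero_of_natDegree_lt h2, map_zero]
      · rw [← h2, hmon.coeff_natDegree, Derivation.map_one_eq_zero]
    rw [degree_eq_natDegree hmon.ne_zero] at hdeg
    exact absurd hlt (not_lt.2 hdeg)
  have h2 := hco (m.natDegree - 1)
  rw [hq, coeff_zero, Nat.sub_add_cancel hpos, hmon.coeff_natDegree, one_mul] at h2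
  have h3 : D (m.coeff (m.natDegree - 1)) + (m.natDegree : ℕ) = 0 := by
    rw [h2]
    congr 1
    have : ((m.natDegree - 1 + 1 : ℕ) : F) = (m.natDegree : F) := by
      rw [Nat.sub_add_cancel hpos]
    rw [← this]
    push_cast
    ring
  obtain ⟨b, hb⟩ := exists_one D _ _ hpos.ne' h3
  exact hD b hb

/-- A field `k` such that `f` is transcendental over `k` and `L` is algebraic over `k(f)`. -/
theorem exists_basis (K : Type u) (L : Type v) [Field K] [Field L] [Algebra K L] (f : L)
    (hf : Transcendental K f) : ∃ k : IntermediateField K L, Transcendental k f ∧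
      Algebra.IsAlgebraic (IntermediateField.adjoin k {f}) L := by
  have hind : AlgebraicIndepOn K id ({f} : Set L) := by
    have h1 : AlgebraicIndependent K (fun i : ({f} : Set L) => id (i : L)) := by
      rw [algebraicIndependent_singleton_iff (⟨f, rfl⟩ : ({f} : Set L))]
      exact hf
    exact h1
  have h0 : Algebra.IsAlgebraic (Algebra.adjoin K (Set.univ : Set L)) L := by
    refine ⟨fun x => ?_⟩
    exact isAlgebraic_algebraMap (⟨x, Algebra.subset_adjoin (Set.mem_univ x)⟩ :
      Algebra.adjoin K (Set.univ : Set L))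
  obtain ⟨B, hB1, hB2, hB⟩ := exists_isTranscendenceBasis_between (R := K) (A := L) {f}
    Set.univ (Set.subset_univ _) hind
  have hfB : f ∈ B := hB1 rfl
  -- the field
  refine ⟨IntermediateField.adjoin K (B \ {f}), ?_, ?_⟩
  · rw [IntermediateField.transcendental_adjoin_iff]
    have h1 := hB.1.transcendental_adjoin (s := {i : B | (i : L) ≠ f}) (i := ⟨f, hfB⟩)
      (fun h => h rfl)
    have h2 : ((↑) : B → L) '' {i : B | (i : L) ≠ f} = B \ {f} := by
      ext a
      constructor
      · rintro ⟨i, hi, rfl⟩
        exact ⟨i.2, hi⟩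
      · rintro ⟨ha, haf⟩
        exact ⟨⟨a, ha⟩, haf, rfl⟩
    rw [h2] at h1
    exact h1
  · obtain ⟨k, hk⟩ : ∃ k, k = IntermediateField.adjoin K (B \ {f}) := ⟨_, rfl⟩
    rw [← hk]
    obtain ⟨E, hE⟩ : ∃ E, E = IntermediateField.adjoin k ({f} : Set L) := ⟨_, rfl⟩
    rw [← hE]
    -- `B` is in `E`
    have hBE : ∀ x ∈ B, x ∈ E := by
      intro x hx
      by_cases hxf : x = f
      · rw [hxf, hE]
        exact IntermediateField.subset_adjoin k _ rfl
      · have h1 : x ∈ k := by
          rw [hk]
          exact IntermediateField.subset_adjoin K _ ⟨hx, hxf⟩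
        exact E.algebraMap_mem (⟨x, h1⟩ : k)
    have hKE : IntermediateField.adjoin K B ≤ E.restrictScalars K :=
      IntermediateField.adjoin_le_iff.2 hBE
    have halg : Algebra.IsAlgebraic (IntermediateField.adjoin K B) L := by
      have h1 := hB.isAlgebraic_field
      rw [Subtype.range_coe] at h1
      exact h1
    have hKE' : ∀ a ∈ IntermediateField.adjoin K B, a ∈ E := fun a ha => hKE ha
    let g : IntermediateField.adjoin K B →+* E :=
      { toFun := fun a => ⟨a.1, hKE' a.1 a.2⟩
        map_one' := rfl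
        map_mul' := fun _ _ => rfl
        map_zero' := rfl
        map_add' := fun _ _ => rfl }
    have hg : ∀ a, ((g a : E) : L) = a := fun _ => rfl
    have hgc : (algebraMap E L).comp g = algebraMap (IntermediateField.adjoin K B) L :=
      RingHom.ext hg
    refine ⟨fun x => ?_⟩
    obtain ⟨p, hp, hpx⟩ := halg.isAlgebraic x
    refine ⟨p.map g, ?_, ?_⟩
    · intro h1
      apply hp
      exact Polynomial.map_injective g g.injective (by rw [h1, Polynomial.map_zero])
    · rw [Polynomial.aeval_def, Polynomial.eval₂_map, hgc]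
      exact hpx

/-- For each transcendental `f` there is a derivation with `D f = f` and without the value `1`. -/
theorem exists_der (h2 : S_DT2.{v}) {K : Type u} {L : Type v} [Field K] [CharZero K] [Field L]
    [Algebra K L] (f : L) (hf : Transcendental K f) :
    ∃ D : Derivation K L L, D f = f ∧ ∀ h : L, D h ≠ 1 := by
  obtain ⟨k, hkf, hfin⟩ := exists_basis K L f hf
  have hcL : CharZero L := charZero_of_injective_algebraMap (algebraMap K L).injective
  have hck : CharZero k := charZero_of_injective_algebraMap (algebraMap K k).injective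
  have hcE : CharZero k⟮f⟯ := charZero_of_injective_algebraMap (algebraMap k k⟮f⟯).injective
  let al : Algebra k[X] k⟮f⟯ := (aeval (AdjoinSimple.gen k f)).toRingHom.toAlgebra
  have hal : ∀ g : k[X], algebraMap k[X] k⟮f⟯ g = aeval (AdjoinSimple.gen k f) g := fun g => rfl
  let e : RatFunc k ≃ₐ[k[X]] k⟮f⟯ :=
    AlgEquiv.ofRingEquiv (f := (RatFunc.algEquivOfTranscendental f hkf).toRingEquiv) (by
      intro g
      rw [hal]
      exact RatFunc.algEquivOfTranscendental_algebraMap f hkf g)
  have : IsFractionRing k[X] k⟮f⟯ := IsLocalization.isLocalization_of_algEquiv _ e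
  obtain ⟨D, hD1, hD2, hD3⟩ := h2 k k⟮f⟯
  obtain ⟨D', hD'1⟩ := exists_ext (L := L) D
  have hD'2 := no_one D hD3 D' hD'1
  have hK : ∀ c : K, D' (algebraMap K L c) = 0 := by
    intro c
    have h1 : algebraMap K L c
        = algebraMap k⟮f⟯ L (algebraMap k[X] k⟮f⟯ (C (algebraMap K k c))) := by
      rw [hal, aeval_C]
      rfl
    rw [h1, hD'1, hD2, map_zero]
  have hsm : ∀ (c : K) (x : L), D' (c • x) = c • D' x := by
    intro c x
    rw [Algebra.smul_def, D'.leibniz, hK, smul_zero, add_zero, Algebra.smul_def c (D' x), smul_eq_mul]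
  refine ⟨Derivation.mk' (R := K)
    { toFun := D', map_add' := map_add D', map_smul' := hsm } (fun a b => D'.leibniz a b), ?_, ?_⟩
  · change D' f = f
    have h1 : f = algebraMap k⟮f⟯ L (algebraMap k[X] k⟮f⟯ X) := by
      rw [hal, aeval_X]
      rfl
    conv_lhs => rw [h1]
    rw [hD'1, hD1, ← h1]
  · exact hD'2

end Pool.Agent.H416.DT

namespace Pool.Agent.H416.DT

universe u v

section

variable {R : Type u} {L : Type v} [CommRing R] [CommRing L] [Algebra R L] (D : Derivation R L L)

/-- the homomorphism to the dual numbers -/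
def dual : L →+* TrivSqZeroExt L L where
  toFun x := TrivSqZeroExt.inl x + TrivSqZeroExt.inr (D x)
  map_one' := by
    rw [D.map_one_eq_zero, TrivSqZeroExt.inr_zero, add_zero, TrivSqZeroExt.inl_one]
  map_mul' x y := by
    ext
    · simp
    · simp [D.leibniz, mul_comm]
  map_zero' := by simp
  map_add' x y := by
    ext
    · simp
    · simp

theorem snd_dual (x : L) : (dual D x).snd = D x := by
  show (TrivSqZeroExt.inl x + TrivSqZeroExt.inr (D x) : TrivSqZeroExt L L).snd = D x
  simp

theorem dual_eq (x : L) : dual D x = TrivSqZeroExt.inlHom L L x +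
    TrivSqZeroExt.inr (1 : L) * TrivSqZeroExt.inlHom L L (D x) := by
  show (TrivSqZeroExt.inl x + TrivSqZeroExt.inr (D x) : TrivSqZeroExt L L) = _
  ext
  · simp
  · simp

/-- `D (det U) = det U * tr (U⁻¹ D U)` (helper139). -/
theorem der_det {ι : Type*} [Fintype ι] [DecidableEq ι] (U V : Matrix ι ι L) (hUV : U * V = 1) :
    D U.det = U.det * (V * U.map D).trace := by
  set i : L →+* TrivSqZeroExt L L := TrivSqZeroExt.inlHom L L with hi
  set ε : TrivSqZeroExt L L := TrivSqZeroExt.inr 1 with hε
  have hεε : ε * ε = 0 := TrivSqZeroExt.inr_mul_inr L 1 1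
  have h1 : (dual D).mapMatrix U = i.mapMatrix U * (1 + ε • i.mapMatrix (V * U.map D)) := by
    rw [mul_add, mul_one, Matrix.mul_smul, ← map_mul, ← mul_assoc, hUV, one_mul]
    ext1 a b
    exact dual_eq D (U a b)
  have h2 := congrArg Matrix.det h1
  rw [← RingHom.map_det, Matrix.det_mul, ← RingHom.map_det, Matrix.det_one_add_smul] at h2
  have h3 := congrArg TrivSqZeroExt.snd h2
  rw [snd_dual, pow_two, hεε, mul_zero, add_zero] at h3
  have h4 : (i.mapMatrix (V * U.map D)).trace = i (V * U.map D).trace :=
    (AddMonoidHom.map_trace i.toAddMonoidHom _).symm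
  rw [h4] at h3
  rw [h3, hi, hε]
  simp

end

end Pool.Agent.H416.DT
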