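import Pool.Agent.H416.DT.Gen
import Pool.Agent.H416.DT.Ext

/-!
# Cycles of dimension one and determinants of representations
-/

set_option autoImplicit false
set_option linter.unusedSectionVars false

namespace Pool.Agent.H416.DT

open Pool.Agent.H416.Dual
open Pool.Agent.V11187.DG (Cyc onM onElt value supp)

universe u v w x

section det

variable {K : Type u} {L : Type v} [Field K] [Field L] [Algebra K L] (D : Derivation K L L) (r : ℕ)

/-- `L / D L` -/
abbrev Quo := L ⧸ (LinearMap.range (D : L →ₗ[K] L))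

/-- the class in `L / D L` -/
noncomputable abbrev qm : L →ₗ[K] Quo D := (LinearMap.range (D : L →ₗ[K] L)).mkQ

/-- the derivation of the matrix ring -/
noncomputable def dlM : Matrix (Fin r) (Fin r) L →ₗ[K] Matrix (Fin r) (Fin r) L :=
  (D : L →ₗ[K] L).mapMatrix

/-- the trace with values in `L / D L` -/
noncomputable def tM : Matrix (Fin r) (Fin r) L →ₗ[K] Quo D :=
  (qm D).comp (Matrix.traceLinearMap (Fin r) K L)

theorem dlM_apply (x : Matrix (Fin r) (Fin r) L) (i j : Fin r) : dlM D r x i j = D (x i j) := rfl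

theorem tM_apply (x : Matrix (Fin r) (Fin r) L) : tM D r x = qm D x.trace := rfl

theorem dlM_mul (x y : Matrix (Fin r) (Fin r) L) :
    dlM D r (x * y) = dlM D r x * y + x * dlM D r y := by
  ext i j
  rw [dlM_apply, Matrix.add_apply, Matrix.mul_apply, Matrix.mul_apply, Matrix.mul_apply, map_sum,
    ← Finset.sum_add_distrib]
  refine Finset.sum_congr rfl fun k _ => ?_
  rw [D.leibniz, dlM_apply, dlM_apply, smul_eq_mul, smul_eq_mul]
  ring

theorem tM_comm (x y : Matrix (Fin r) (Fin r) L) : tM D r (x * y) = tM D r (y * x) := by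
  rw [tM_apply, tM_apply, Matrix.trace_mul_comm]

theorem tM_dlM (x : Matrix (Fin r) (Fin r) L) : tM D r (dlM D r x) = 0 := by
  rw [tM_apply]
  have h1 : (dlM D r x).trace = D x.trace := by
    rw [Matrix.trace, Matrix.trace, map_sum]
    rfl
  rw [h1]
  exact (Submodule.Quotient.mk_eq_zero _).2 ⟨x.trace, rfl⟩

theorem cycM : Cyc 1 (gr K (Matrix (Fin r) (Fin r) L)) (gd (dlM D r)) (gt (tM D r)) :=
  cyc_gd _ _ (dlM_mul D r) (tM_comm D r) (tM_dlM D r)

variable {r} {G : Type w} [Group G]

/-- the inclusion -/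
noncomputable abbrev inc (φ : MonoidAlgebra K G →ₐ[K] Matrix (Fin r) (Fin r) L) :
    MonoidAlgebra K G →ₐ[K] DN (Matrix (Fin r) (Fin r) L) :=
  (TrivSqZeroExt.inlAlgHom K (Matrix (Fin r) (Fin r) L) (Matrix (Fin r) (Fin r) L)).comp φ

theorem inc_apply (φ : MonoidAlgebra K G →ₐ[K] Matrix (Fin r) (Fin r) L) (x : MonoidAlgebra K G) :
    inc φ x = TrivSqZeroExt.inl (φ x) := rfl

theorem inc_mem (φ : MonoidAlgebra K G →ₐ[K] Matrix (Fin r) (Fin r) L) (x : MonoidAlgebra K G) :
    inc φ x ∈ gr K (Matrix (Fin r) (Fin r) L) 0 := by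
  rw [mem_zero]
  exact TrivSqZeroExt.snd_inl _ _

/-- the block matrix -/
noncomputable def blk (φ : MonoidAlgebra K G →ₐ[K] Matrix (Fin r) (Fin r) L) {d : ℕ}
    (u : Matrix (Fin d) (Fin d) (MonoidAlgebra K G)) : Matrix (Fin d × Fin r) (Fin d × Fin r) L :=
  Matrix.of fun x y => φ (u x.1 y.1) x.2 y.2

theorem blk_mul (φ : MonoidAlgebra K G →ₐ[K] Matrix (Fin r) (Fin r) L) {d : ℕ}
    (u v : Matrix (Fin d) (Fin d) (MonoidAlgebra K G)) : blk φ (u * v) = blk φ u * blk φ v := by
  ext x y
  rw [Matrix.mul_apply, Fintype.sum_prod_type]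
  change φ ((u * v) x.1 y.1) x.2 y.2 = _
  rw [Matrix.mul_apply, map_sum, Matrix.sum_apply]
  refine Finset.sum_congr rfl fun j _ => ?_
  rw [map_mul, Matrix.mul_apply]
  rfl

theorem blk_one (φ : MonoidAlgebra K G →ₐ[K] Matrix (Fin r) (Fin r) L) {d : ℕ} :
    blk φ (1 : Matrix (Fin d) (Fin d) (MonoidAlgebra K G)) = 1 := by
  ext x y
  change φ ((1 : Matrix (Fin d) (Fin d) (MonoidAlgebra K G)) x.1 y.1) x.2 y.2 = _
  rw [Matrix.one_apply, Matrix.one_apply]
  by_cases h : x.1 = y.1
  · rw [if_pos h, map_one, Matrix.one_apply]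
    by_cases h2 : x.2 = y.2
    · rw [if_pos h2, if_pos (Prod.ext h h2)]
    · rw [if_neg h2, if_neg (fun h3 => h2 (by rw [h3]))]
  · rw [if_neg h, map_zero, if_neg (fun h3 => h (by rw [h3]))]
    rfl

theorem div_eq {a b t : L} (ha : a ≠ 0) (h : b = a * t) : b / a = t := by
  rw [h, mul_div_cancel_left₀ _ ha]

/-- the value of the cycle is the logarithmic derivative of the determinant -/
theorem onM_inc (φ : MonoidAlgebra K G →ₐ[K] Matrix (Fin r) (Fin r) L) {d : ℕ}
    (u v : Matrix (Fin d) (Fin d) (MonoidAlgebra K G)) (huv : u * v = 1) :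
    onM (gd (dlM D r)) (gt (tM D r)) (inc φ : MonoidAlgebra K G →+* _) 0 u v =
      qm D (D (blk φ u).det / (blk φ u).det) := by
  have h0 : blk φ u * blk φ v = 1 := by rw [← blk_mul, huv, blk_one]
  have hne : (blk φ u).det ≠ 0 := by
    intro h
    have h1 := congrArg Matrix.det h0
    rw [Matrix.det_mul, h, zero_mul, Matrix.det_one] at h1
    exact zero_ne_one h1
  rw [div_eq hne (der_det D _ _ h0)]
  unfold onM
  rw [pow_zero, mul_one, Matrix.trace, map_sum, Matrix.trace, Fintype.sum_prod_type, map_sum]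
  refine Finset.sum_congr rfl fun i _ => ?_
  rw [Matrix.diag_apply, Matrix.mul_apply, map_sum]
  have h1 : ∑ a : Fin r, (blk φ v * (blk φ u).map D).diag (i, a) =
      ∑ j : Fin d, (φ (v i j) * dlM D r (φ (u j i))).trace := by
    have h2 : ∀ j : Fin d, (φ (v i j) * dlM D r (φ (u j i))).trace =
        ∑ a : Fin r, ∑ b : Fin r, φ (v i j) a b * D (φ (u j i) b a) := by
      intro j
      rw [Matrix.trace]
      refine Finset.sum_congr rfl fun a _ => ?_
      rw [Matrix.diag_apply, Matrix.mul_apply]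
      rfl
    rw [Finset.sum_congr rfl fun j _ => h2 j, Finset.sum_comm]
    refine Finset.sum_congr rfl fun a _ => ?_
    rw [Matrix.diag_apply, Matrix.mul_apply, Fintype.sum_prod_type]
    rfl
  rw [h1, map_sum]
  refine Finset.sum_congr rfl fun j _ => ?_
  rw [← tM_apply, ← gt_mul]
  rfl

/-- the value on a group element -/
theorem onElt_inc (φ : MonoidAlgebra K G →ₐ[K] Matrix (Fin r) (Fin r) L) (γ : G) :
    onElt (gd (dlM D r)) (gt (tM D r)) (inc φ) 0 γ =
      qm D (D (φ (MonoidAlgebra.single γ 1)).det / (φ (MonoidAlgebra.single γ 1)).det) := by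
  have h0 : φ (MonoidAlgebra.single γ 1) * φ (MonoidAlgebra.single γ⁻¹ 1) = 1 := by
    rw [← map_mul, MonoidAlgebra.single_mul_single, mul_inv_cancel, one_mul,
      ← MonoidAlgebra.one_def, map_one]
  have hne : (φ (MonoidAlgebra.single γ 1)).det ≠ 0 := by
    intro h
    have h1 := congrArg Matrix.det h0
    rw [Matrix.det_mul, h, zero_mul, Matrix.det_one] at h1
    exact zero_ne_one h1
  rw [div_eq hne (der_det D _ _ h0)]
  unfold onElt
  rw [pow_zero, mul_one, inc_apply, inc_apply, gt_mul]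
  rfl

/-- the logarithmic derivatives of the determinants, as a homomorphism -/
noncomputable def lg (φ : MonoidAlgebra K G →ₐ[K] Matrix (Fin r) (Fin r) L) (γ : G) : Quo D :=
  qm D (D (φ (MonoidAlgebra.single γ 1)).det / (φ (MonoidAlgebra.single γ 1)).det)

theorem det_ne (φ : MonoidAlgebra K G →ₐ[K] Matrix (Fin r) (Fin r) L) (γ : G) :
    (φ (MonoidAlgebra.single γ 1)).det ≠ 0 := by
  have h0 : φ (MonoidAlgebra.single γ 1) * φ (MonoidAlgebra.single γ⁻¹ 1) = 1 := by
    rw [← map_mul, MonoidAlgebra.single_mul_single, mul_inv_cancel, one_mul,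
      ← MonoidAlgebra.one_def, map_one]
  intro h
  have h1 := congrArg Matrix.det h0
  rw [Matrix.det_mul, h, zero_mul, Matrix.det_one] at h1
  exact zero_ne_one h1

theorem dlog_mul {a b : L} (ha : a ≠ 0) (hb : b ≠ 0) : D (a * b) / (a * b) = D a / a + D b / b := by
  rw [D.leibniz, smul_eq_mul, smul_eq_mul]
  field_simp
  ring

theorem lg_mul (φ : MonoidAlgebra K G →ₐ[K] Matrix (Fin r) (Fin r) L) (a b : G) :
    lg D φ (a * b) = lg D φ a + lg D φ b := by
  unfold lg
  rw [← map_add, ← dlog_mul D (det_ne φ a) (det_ne φ b), ← Matrix.det_mul, ← map_mul,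
    MonoidAlgebra.single_mul_single, one_mul]

/-- the values of the cycle lie in a finitely generated group -/
theorem finType_inc (φ : MonoidAlgebra K G →ₐ[K] Matrix (Fin r) (Fin r) L) (H : Subgroup G)
    (hH : H.FG) : ∃ (s : Finset K) (F : Finset (Quo D)), ∀ (a : H) (l : List H),
      l.length = 2 * 0 + 1 → a * l.prod = 1 → value (gd (dlM D r)) (gt (tM D r)) (inc φ) a
        (l.map Subtype.val) ∈ Submodule.span (Algebra.adjoin ℤ (s : Set K)) (F : Set (Quo D)) := by
  classical
  obtain ⟨S, hS⟩ := hH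
  refine ⟨∅, S.image (lg D φ), fun a l hl hal => ?_⟩
  obtain ⟨b, rfl⟩ := List.length_eq_one_iff.1 hl
  rw [List.prod_singleton] at hal
  have ha : a = b⁻¹ := eq_inv_of_mul_eq_one_left hal
  have h1 : value (gd (dlM D r)) (gt (tM D r)) (inc φ) (a : G) ([b].map Subtype.val) =
      lg D φ b := by
    unfold lg
    rw [← onElt_inc, ha]
    unfold value onElt
    rw [List.map_singleton, List.map_singleton, List.prod_singleton, pow_zero, mul_one]
    rfl
  rw [h1]
  have hone : lg D φ 1 = 0 := by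
    have h2 := lg_mul D φ 1 1
    rw [mul_one] at h2
    exact left_eq_add.1 h2
  have h3 : ∀ x ∈ H, lg D φ x ∈ Submodule.span
      (Algebra.adjoin ℤ ((∅ : Finset K) : Set K)) ((S.image (lg D φ) : Finset (Quo D)) :
        Set (Quo D)) := by
    intro x hx
    rw [← hS] at hx
    induction hx using Subgroup.closure_induction with
    | mem x hx =>
      apply Submodule.subset_span
      rw [Finset.coe_image]
      exact ⟨x, hx, rfl⟩
    | one =>
      rw [hone]
      exact Submodule.zero_mem _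
    | mul x y _ _ hx hy =>
      rw [lg_mul]
      exact Submodule.add_mem _ hx hy
    | inv x _ hx =>
      have h2 := lg_mul D φ x x⁻¹
      rw [mul_inv_cancel, hone] at h2
      rw [← neg_eq_of_add_eq_zero_right h2.symm]
      exact Submodule.neg_mem _ hx
  exact h3 b b.2

/-- The quotient of the determinants is algebraic if its logarithmic derivatives are exact. -/
theorem alg_of_dlog [CharZero K] (h2 : S_DT2.{v}) {a b : L} (ha : a ≠ 0) (hb : b ≠ 0)
    (h : ∀ D : Derivation K L L, qm D (D a / a) = qm D (D b / b)) : IsAlgebraic K (a / b) := by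
  by_contra hne
  obtain ⟨D, hD1, hD2⟩ := exists_der h2 (a / b) hne
  have h3 : D (a / b) / (a / b) = D a / a - D b / b := by
    have h4 := dlog_mul D (div_ne_zero ha hb) hb
    rw [div_mul_cancel₀ _ hb] at h4
    rw [h4, add_sub_cancel_right]
  rw [hD1, div_self (div_ne_zero ha hb)] at h3
  have h5 : qm D (D a / a - D b / b) = 0 := by
    rw [map_sub, h D, sub_self]
  rw [← h3] at h5
  obtain ⟨z, hz⟩ := (Submodule.Quotient.mk_eq_zero _).1 h5
  exact hD2 z hz

/-- **Determinants of representations.** -/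
theorem det_alg [CharZero K] (h2 : S_DT2.{v}) {d : ℕ}
    (u v : Matrix (Fin d) (Fin d) (MonoidAlgebra K G)) (huv : u * v = 1) (γ : G)
    (h : ∀ (D : Derivation K L L) (φ : MonoidAlgebra K G →ₐ[K] Matrix (Fin r) (Fin r) L),
      onM (gd (dlM D r)) (gt (tM D r)) (inc φ : MonoidAlgebra K G →+* _) 0 u v =
        onElt (gd (dlM D r)) (gt (tM D r)) (inc φ) 0 γ) (ρ : G →* GL (Fin r) L) :
    IsAlgebraic K ((Matrix.of fun x y : Fin d × Fin r =>
      (u x.1 y.1).coeff.sum fun g a => algebraMap K L a * (ρ g).val x.2 y.2).det /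
        (ρ γ).val.det) := by
  let ρ' : G →* Matrix (Fin r) (Fin r) L := (Units.coeHom _).comp ρ
  let φ : MonoidAlgebra K G →ₐ[K] Matrix (Fin r) (Fin r) L := MonoidAlgebra.lift K _ G ρ'
  have h1 : (Matrix.of fun x y : Fin d × Fin r =>
      (u x.1 y.1).coeff.sum fun g a => algebraMap K L a * (ρ g).val x.2 y.2) = blk φ u := by
    ext x y
    change (u x.1 y.1).coeff.sum (fun g a => algebraMap K L a * (ρ g).val x.2 y.2) =
      φ (u x.1 y.1) x.2 y.2
    rw [MonoidAlgebra.lift_apply, Finsupp.sum, Finsupp.sum, Matrix.sum_apply]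
    refine Finset.sum_congr rfl fun g _ => ?_
    rw [Matrix.smul_apply, Algebra.smul_def]
    rfl
  have h3 : (ρ γ).val = φ (MonoidAlgebra.single γ 1) := by
    rw [MonoidAlgebra.lift_single, one_smul]
    rfl
  have h0 : blk φ u * blk φ v = 1 := by rw [← blk_mul, huv, blk_one]
  have hne : (blk φ u).det ≠ 0 := by
    intro h
    have h1 := congrArg Matrix.det h0
    rw [Matrix.det_mul, h, zero_mul, Matrix.det_one] at h1
    exact zero_ne_one h1
  rw [h1, h3]
  refine alg_of_dlog h2 hne (det_ne φ γ) fun D => ?_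
  rw [← onM_inc D φ u v huv, h D φ, onElt_inc]

end det

end Pool.Agent.H416.DT
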