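import Pool.Agent.H416.Dual
import Pool.Graph.R_pool_sql_team_seeded_843ab51a.V11187.DG.Grp

/-!
# Cycles of dimension one given by derivations
-/

set_option autoImplicit false
set_option linter.unusedSectionVars false

namespace Pool.Agent.H416.DT

open Pool.Agent.H416.Dual
open Pool.Agent.V11187.DG (Cyc onM onElt value)

universe u v w x

section gen

variable {K : Type u} [Field K] {R : Type v} [Ring R] [Algebra K R] {M : Type x} [AddCommGroup M]
  [Module K M] (dl : R →ₗ[K] R) (tN : R →ₗ[K] M)

/-- The differential of the dual numbers. -/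
noncomputable def gd : DN R →ₗ[K] DN R where
  toFun x := TrivSqZeroExt.inr (dl x.fst)
  map_add' x y := by rw [TrivSqZeroExt.fst_add, map_add, TrivSqZeroExt.inr_add]
  map_smul' c x := by
    rw [TrivSqZeroExt.fst_smul, map_smul, TrivSqZeroExt.inr_smul, RingHom.id_apply]

/-- The closed graded trace. -/
noncomputable def gt : DN R →ₗ[K] M where
  toFun x := tN x.snd
  map_add' x y := by rw [TrivSqZeroExt.snd_add, map_add]
  map_smul' c x := by rw [TrivSqZeroExt.snd_smul, map_smul, RingHom.id_apply]

theorem gd_apply (x : DN R) : gd dl x = TrivSqZeroExt.inr (dl x.fst) := rfl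

theorem gt_apply (x : DN R) : gt tN x = tN x.snd := rfl

theorem cyc_gd (dl_mul : ∀ x y, dl (x * y) = dl x * y + x * dl y)
    (tN_comm : ∀ x y, tN (x * y) = tN (y * x)) (tN_dl : ∀ x, tN (dl x) = 0) :
    Cyc 1 (gr K R) (gd dl) (gt tN) where
  deg := by
    intro i x hx
    match i with
    | 0 =>
      rw [zero_add, mem_one, gd_apply, TrivSqZeroExt.fst_inr]
    | 1 =>
      rw [mem_one] at hx
      change gd dl x ∈ gr K _ (0 + 2)
      rw [mem_two, gd_apply, hx, map_zero, TrivSqZeroExt.inr_zero]
    | i + 2 =>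
      rw [mem_two] at hx
      rw [hx, map_zero]
      exact Submodule.zero_mem _
  sq := by
    intro x
    rw [gd_apply, gd_apply, TrivSqZeroExt.fst_inr, map_zero, TrivSqZeroExt.inr_zero]
  leibniz := by
    intro i x hx y
    match i with
    | 0 =>
      rw [mem_zero] at hx
      rw [pow_zero, one_mul, gd_apply, gd_apply, gd_apply, TrivSqZeroExt.fst_mul, dl_mul,
        TrivSqZeroExt.inr_add]
      congr 1
      · apply TrivSqZeroExt.ext
        · rw [TrivSqZeroExt.fst_inr, TrivSqZeroExt.fst_mul, TrivSqZeroExt.fst_inr, zero_mul]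
        · rw [TrivSqZeroExt.snd_inr, TrivSqZeroExt.snd_mul, TrivSqZeroExt.fst_inr,
            TrivSqZeroExt.snd_inr, zero_smul, zero_add]
          rfl
      · apply TrivSqZeroExt.ext
        · rw [TrivSqZeroExt.fst_inr, TrivSqZeroExt.fst_mul, TrivSqZeroExt.fst_inr, mul_zero]
        · rw [TrivSqZeroExt.snd_inr, TrivSqZeroExt.snd_mul, TrivSqZeroExt.fst_inr,
            TrivSqZeroExt.snd_inr, MulOpposite.op_zero, zero_smul, add_zero]
          rfl
    | 1 =>
      rw [mem_one] at hx
      have h1 : gd dl x = 0 := by rw [gd_apply, hx, map_zero, TrivSqZeroExt.inr_zero]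
      have h2 : gd dl (x * y) = 0 := by
        rw [gd_apply, TrivSqZeroExt.fst_mul, hx, zero_mul, map_zero, TrivSqZeroExt.inr_zero]
      have h3 : x * gd dl y = 0 := by
        apply TrivSqZeroExt.ext
        · rw [TrivSqZeroExt.fst_mul, hx, zero_mul, TrivSqZeroExt.fst_zero]
        · rw [TrivSqZeroExt.snd_mul, hx, gd_apply, TrivSqZeroExt.fst_inr, TrivSqZeroExt.snd_inr,
            zero_smul, MulOpposite.op_zero, zero_smul, add_zero, TrivSqZeroExt.snd_zero]
      rw [h1, h2, h3, zero_mul, mul_zero, add_zero]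
    | i + 2 =>
      rw [mem_two] at hx
      rw [hx, zero_mul, map_zero, zero_mul, zero_mul, mul_zero, add_zero]
  closed := by
    intro x
    rw [gd_apply, gt_apply, TrivSqZeroExt.snd_inr, tN_dl]
  trace := by
    have hz : ∀ x y : DN R, x.snd = 0 → gt tN (x * y) = tN (x.fst * y.snd) ∧
        gt tN (y * x) = tN (y.snd * x.fst) := by
      intro x y hx
      constructor
      · rw [gt_apply, TrivSqZeroExt.snd_mul, hx, smul_zero, add_zero]
        rfl
      · rw [gt_apply, TrivSqZeroExt.snd_mul, hx, smul_zero, zero_add]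
        rfl
    intro i j x hx y hy
    match i, j with
    | 0, j =>
      rw [mem_zero] at hx
      rw [zero_mul, pow_zero, one_mul, (hz x y hx).1, (hz x y hx).2, tN_comm]
    | i, 0 =>
      rw [mem_zero] at hy
      rw [mul_zero, pow_zero, one_mul, (hz y x hy).1, (hz y x hy).2, tN_comm]
    | 1, 1 =>
      rw [mem_one] at hx hy
      have h1 : ∀ a b : DN R, a.fst = 0 → b.fst = 0 → a * b = 0 := by
        intro a b ha hb
        apply TrivSqZeroExt.ext
        · rw [TrivSqZeroExt.fst_mul, ha, zero_mul, TrivSqZeroExt.fst_zero]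
        · rw [TrivSqZeroExt.snd_mul, ha, hb, zero_smul, MulOpposite.op_zero, zero_smul, add_zero,
            TrivSqZeroExt.snd_zero]
      rw [h1 x y hx hy, h1 y x hy hx, mul_zero]
    | i + 2, j =>
      rw [mem_two] at hx
      rw [hx, zero_mul, mul_zero, mul_zero]
    | i, j + 2 =>
      rw [mem_two] at hy
      rw [hy, zero_mul, mul_zero, mul_zero]
  dim := by
    intro i hi x hx
    match i with
    | 0 =>
      rw [mem_zero] at hx
      rw [gt_apply, hx, map_zero]
    | 1 => exact absurd rfl hi
    | i + 2 =>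
      rw [mem_two] at hx
      rw [hx, map_zero]

theorem gt_mul (x y : R) :
    gt tN (TrivSqZeroExt.inl x * gd dl (TrivSqZeroExt.inl y)) = tN (x * dl y) := by
  rw [gt_apply, TrivSqZeroExt.snd_mul, gd_apply, TrivSqZeroExt.snd_inr, TrivSqZeroExt.fst_inr]
  change tN (x * dl y + _) = _
  rw [MulOpposite.op_zero, zero_smul, add_zero]

end gen

end Pool.Agent.H416.DT
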