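import Mathlib

/-!
# Tasks: logarithmic derivatives of determinants, derivations without `D h = 1`
-/

set_option autoImplicit false

namespace Pool.Agent.H416.DT

open Polynomial

universe u v

/-- DT1. `D (det U) = det U * tr (U⁻¹ D U)`.
Proof. The map `φ x = inl x + inr (D x)` is a ring homomorphism from `L` to the dual numbers
`TrivSqZeroExt L L`. `det (U.map φ) = φ (det U) = det U + ε D (det U)`. On the other hand
`U.map φ = U + ε D U = U (1 + ε V D U)` and `det (1 + ε M) = 1 + ε tr M` (`Matrix.det_one_add_smul`,
as `ε ^ 2 = 0`). Compare the second components. (Or by Leibniz' formula directly.) -/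
def S_DT1 : Prop := ∀ (R L : Type u) [CommRing R] [CommRing L] [Algebra R L] (D : Derivation R L L)
  (ι : Type) [Fintype ι] [DecidableEq ι] (U V : Matrix ι ι L), U * V = 1 →
  D U.det = U.det * (V * U.map D).trace

/-- DT2. The derivation `X d/dX` of the field of rational functions over `k`; `1` is not a value.
Proof. Existence: `D (P / Q) = X (P' Q - P Q') / Q ^ 2` (or: derivations of `k[X]` extend to the
localisation, look in Mathlib for derivations and localisations, Kähler differentials, formally étale,
`Differential`). Suppose `D a = 1`, `a = P / Q` with `P, Q` coprime. Then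
`X (P' Q - P Q') = Q ^ 2` in `k[X]`. So `X ∣ Q`, write `Q = X ^ s R`, `s ≥ 1`, `¬ X ∣ R`, so
`¬ X ∣ P`. `X (P' Q - P Q') = X ^ s (X P' R - s P R - X P R')` and `Q ^ 2 = X ^ (2 s) R ^ 2`, hence
`X ∣ s P R`, a contradiction (characteristic zero). -/
def S_DT2 : Prop := ∀ (k E : Type u) [Field k] [CharZero k] [Field E] [Algebra k[X] E]
  [IsFractionRing k[X] E], ∃ D : Derivation ℤ E E, D (algebraMap k[X] E X) = algebraMap k[X] E X ∧
    (∀ c : k, D (algebraMap k[X] E (C c)) = 0) ∧ ∀ a : E, D a ≠ 1

/-- DT3. Extension to a finite extension.
Proof. `differentialFiniteDimensional` in `Mathlib/FieldTheory/Differential/Basic.lean` extends `D` to a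
derivation `D'` of `L`. Suppose `D' h = 1`. Let `m = minpoly F h`, of degree `n ≥ 1`, with coefficients
`a_i`. By `Derivation.apply_aeval_eq` (with `Derivation.mapCoeff`)
`0 = D' (m (h)) = (mapCoeff D m) (h) + m' (h)`. The polynomial `mapCoeff D m + m'` has degree `< n` (`m` is
monic) and vanishes at `h`, so it is zero. Its coefficient at `n - 1` is `D a_{n-1} + n`. So
`D (- a_{n-1} / n) = 1`, contradiction. -/
def S_DT3 : Prop := ∀ (F L : Type u) [Field F] [CharZero F] [Field L] [Algebra F L]
  [FiniteDimensional F L] (D : Derivation ℤ F F), (∀ a : F, D a ≠ 1) →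
  ∃ D' : Derivation ℤ L L, (∀ a : F, D' (algebraMap F L a) = algebraMap F L (D a)) ∧
    ∀ h : L, D' h ≠ 1

/-- DT4. A finitely generated extension is finite over some `k(f)`, `f` a given transcendental
element, `f` transcendental over `k`.
Proof. `{f}` is algebraically independent over `K`; extend it to a transcendence basis
`B`, `{f} ⊆ B ⊆ {f} ∪ S` (`exists_isTranscendenceBasis_between` or similar). Let `k` be generated by
`B \ {f}` over `K`. Then `f` is transcendental over `k`, and `L` is algebraic over `k(f) = K(B)` and
generated by the finite set `S`, so it is finite over `k(f)`. -/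
def S_DT4 : Prop := ∀ (K L : Type u) [Field K] [Field L] [Algebra K L] (S : Set L), S.Finite →
  IntermediateField.adjoin K S = ⊤ → ∀ f : L, Transcendental K f →
  ∃ k : IntermediateField K L, Transcendental k f ∧
    FiniteDimensional (IntermediateField.adjoin k {f}) L

/-- DT5. Combination: in a finitely generated field extension of characteristic zero, for each
transcendental `f` there is a `K`-derivation `D` with `D f = f` such that `1` is not a value.
Proof (take S_DT2, S_DT3, S_DT4 as hypotheses). By DT4 `L` is finite over `E = k(f)`, and `E` is the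
field of fractions of `k[X]`, `X ↦ f` (`f` transcendental over `k`). By DT2 there is `D` on `E` with
`D f = f`, zero on `k` and without the value `1`; by DT3 it extends to `L`. It vanishes on `K`, so
it is `K`-linear. -/
def S_DT5 : Prop := ∀ (K L : Type u) [Field K] [CharZero K] [Field L] [Algebra K L] (S : Set L),
  S.Finite → IntermediateField.adjoin K S = ⊤ → ∀ f : L, Transcendental K f →
  ∃ D : Derivation K L L, D f = f ∧ ∀ h : L, D h ≠ 1

end Pool.Agent.H416.DT
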